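import Pool.Agent.Run7.h802.HP.All

/-!
MP_602153_ag: a positive proportion of the hypersurfaces of each degree `d ≥ 3` and each dimension
`n ≥ 1` over the rational numbers, ordered by the height of the coefficients, has a regular model
which is projective and flat over the integers.

The forms of degree `d` in `n + 2` variables with integral coefficients in the box `[-H, H]` are
counted. The result is unconditional.

1. There is `δ > 0` such that for all large `H` the proportion of the forms in the box which define a
   smooth hypersurface with a regular projective flat model over `ℤ` is at least `δ`.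
2. Good reduction at the small primes suffices for all but an arbitrarily small proportion: for
   every `ε > 0` there is `B` such that for every modulus `Q` divisible by the primes up to `B` and
   every residue class modulo `Q` of forms with good reduction at the primes dividing `Q`, the
   proportion of the forms in the class which define a smooth hypersurface with a regular projective
   flat model over `ℤ` is at least `1 - ε` for all large `H`.

For the forms in question the same holds for the hypersurface over every number field `K`, viewed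
over the rational numbers.

Proof: the forms having a singular zero modulo `p`, but not exactly one, rational and nondegenerate,
are contained modulo `p` in a subset of codimension two independent of `p`, so by the sieve of
Ekedahl few forms meet it for some large prime `p`. In the remaining case the model over
the `p`-adic integers is given by blowing up the node repeatedly (the value of the form at the
critical point may be divisible by any power of `p`).
-/

set_option autoImplicit false

open AlgebraicGeometry CategoryTheory CategoryTheory.Limits MvPolynomial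

namespace Pool.Agent.Results.MP_602153_ag.PositiveProportion

/-- The exponents of the monomials of degree `d` in the variables `X_0, ..., X_(n+1)`. -/
abbrev Exponent (n d : ℕ) : Type := {m : Fin (n + 2) → Fin (d + 1) // ∑ i, (m i : ℕ) = d}

/-- The form of degree `d` with the coefficients `a`. -/
noncomputable def form {R : Type} [CommRing R] {n d : ℕ} (a : Exponent n d → R) :
    MvPolynomial (Fin (n + 2)) R :=
  ∑ m, C (a m) * ∏ i, X i ^ ((m.1 i : Fin (d + 1)) : ℕ)

/-- The form with the integral coefficients `a`, over the ring `R`. -/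
noncomputable def formOver (R : Type) [CommRing R] {n d : ℕ} (a : Exponent n d → ℤ) :
    MvPolynomial (Fin (n + 2)) R :=
  form fun m => ((a m : ℤ) : R)

/-- `x` is a zero of the form and of all its partial derivatives. -/
def IsSingularZero {k : Type} [Field k] {n d : ℕ} (a : Exponent n d → ℤ) (x : Fin (n + 2) → k) :
    Prop :=
  eval x (formOver k a) = 0 ∧ ∀ i, eval x (pderiv i (formOver k a)) = 0

/-- The hypersurface over the rational numbers is smooth. -/
def IsSmooth {n d : ℕ} (a : Exponent n d → ℤ) : Prop :=
  ∀ (k : Type) [Field k] [CharZero k] (x : Fin (n + 2) → k), IsSingularZero a x → x = 0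

/-- The hypersurface modulo `p` is smooth. -/
def HasGoodReduction {n d : ℕ} (a : Exponent n d → ℤ) (p : ℕ) : Prop :=
  ∀ (k : Type) [Field k] [CharP k p] (x : Fin (n + 2) → k), IsSingularZero a x → x = 0

/-- The dimensions of the local rings of `A` equal the dimensions of their cotangent spaces. -/
def HasRegularLocalRings (A : Type) [CommRing A] : Prop :=
  ∀ p : PrimeSpectrum A, ringKrullDim (Localization.AtPrime p.asIdeal) =
    (((Module.finrank (IsLocalRing.ResidueField (Localization.AtPrime p.asIdeal))
      (IsLocalRing.CotangentSpace (Localization.AtPrime p.asIdeal)) : ℕ) : ℕ∞) : WithBot ℕ∞)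

/-- The local rings of the locally Noetherian scheme `Y` are regular. -/
def IsRegularScheme (Y : Scheme.{0}) : Prop :=
  IsLocallyNoetherian Y ∧
  ∀ U : Y.affineOpens, HasRegularLocalRings (Y.presheaf.obj (Opposite.op U.1))

/-- `Y` is projective over the integers. -/
def IsProjectiveOverInt (Y : Scheme.{0}) : Prop :=
  ∃ (A : Type) (_ : CommRing A) (𝒜 : ℕ → Submodule ℤ A) (_ : GradedAlgebra 𝒜),
    (∀ a ∈ 𝒜 0, ∃ n : ℤ, (n : A) = a) ∧
    (∃ s : Finset A, (∀ a ∈ s, a ∈ 𝒜 1) ∧ Algebra.adjoin ℤ (s : Set A) = ⊤) ∧
    Nonempty (Y ≅ Proj 𝒜)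

/-- The generic fibre of `Y` is isomorphic to `V`. -/
def HasGenericFibre (Y V : Scheme.{0}) : Prop :=
  Nonempty (pullback (specZIsTerminal.from Y)
      (specZIsTerminal.from (Spec (CommRingCat.of ℚ))) ≅ V)

/-- `Y` is an integral regular locally Noetherian scheme, projective and flat over the integers,
with generic fibre `V`. -/
def IsRegularProjectiveFlatModel (V Y : Scheme.{0}) : Prop :=
  IsIntegral Y ∧ IsRegularScheme Y ∧ IsProjectiveOverInt Y ∧ Flat (specZIsTerminal.from Y) ∧
    HasGenericFibre Y V

/-- Every scheme `V` isomorphic to the hypersurface `Proj (K[X] / (G))`, viewed over the rational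
numbers, has a regular projective flat model over the integers. -/
def HypersurfaceHasModel {K : Type} [Field K] {m : ℕ} (G : MvPolynomial (Fin m) K) :
    Prop :=
  ∀ (B : Type) [CommRing B] [Algebra K B]
    (π : MvPolynomial (Fin m) K →ₐ[K] B), Function.Surjective π →
    RingHom.ker π = Ideal.span {G} →
  ∀ (ℬ : ℕ → Submodule K B) [GradedAlgebra ℬ],
    (∀ d, ℬ d = (homogeneousSubmodule (Fin m) K d).map π.toLinearMap) →
  ∀ (V : Scheme.{0}), Nonempty (V ≅ Proj ℬ) → ∃ Y, IsRegularProjectiveFlatModel V Y

/-- The form with the integral coefficients `a` defines a smooth hypersurface over the rational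
numbers; it and the hypersurfaces over all number fields `K` given by the form (in particular that
over `K = ℚ`) have regular projective flat models over the integers. -/
def IsGood {n d : ℕ} (a : Exponent n d → ℤ) : Prop :=
  IsSmooth a ∧ ∀ (K : Type) [Field K] [NumberField K], HypersurfaceHasModel (formOver K a)

/-- The number of all families of coefficients in the box `[-H, H]`. -/
noncomputable def boxCard (n d H : ℕ) : ℝ :=
  (Nat.card {a : Exponent n d → ℤ // ∀ m, |a m| ≤ H} : ℝ)

theorem boxCard_eq (n d H : ℕ) :
    boxCard n d H = (2 * (H : ℝ) + 1) ^ Fintype.card (Exponent n d) := by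
  rw [← Pool.Agent.Run7.h796.HP.card_box (σ := Exponent n d) H]
  unfold boxCard
  have h : {a : Exponent n d → ℤ | ∀ m, |a m| ≤ H} =
      (Pool.Agent.Run7.h796.HP.box (Exponent n d) H : Set (Exponent n d → ℤ)) := by
    ext a
    simp [Pool.Agent.Run7.h796.HP.mem_box]
  change ((Nat.card ({a : Exponent n d → ℤ | ∀ m, |a m| ≤ H} : Set _) : ℕ) : ℝ) = _
  rw [Nat.card_coe_set_eq, h, Set.ncard_coe_finset]

theorem result :
    (∀ n d : ℕ, 1 ≤ n → 3 ≤ d → ∃ δ : ℝ, 0 < δ ∧ ∃ H₀ : ℕ, ∀ H : ℕ, H₀ ≤ H →
      δ * boxCard n d H ≤
        (Nat.card {a : Exponent n d → ℤ // (∀ m, |a m| ≤ H) ∧ IsGood a} : ℝ)) ∧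
    (∀ n d : ℕ, 1 ≤ n → 3 ≤ d → ∀ ε : ℝ, 0 < ε → ∃ B : ℕ, ∀ Q : ℕ, 0 < Q →
      (∀ p : ℕ, p.Prime → p ≤ B → p ∣ Q) →
      ∀ c : Exponent n d → ℤ, (∀ p : ℕ, p.Prime → p ∣ Q → HasGoodReduction c p) →
      ∃ H₀ : ℕ, ∀ H : ℕ, H₀ ≤ H → (1 - ε) * boxCard n d H ≤
        (Nat.card {b : Exponent n d → ℤ // (∀ m, |b m| ≤ H) ∧
          IsGood fun m => c m + Q * b m} : ℝ)) := by
  have key : ∀ n d : ℕ, 1 ≤ n → 3 ≤ d → ∀ a : Exponent n d → ℤ,
      Pool.Agent.Run7.h802.HP.GenSmooth a →
      (∀ p : ℕ, p.Prime → Pool.Agent.Run7.h802.HP.GoodAt a p ∨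
        Pool.Agent.Run7.h802.HP.NodeAt a p) → IsGood a := by
    intro n d hn hd a hs hp
    refine ⟨hs, ?_⟩
    intro K _ _ B _ _ π hπ hker ℬ _ hℬ V hV
    obtain ⟨Y, hi, hn', hr, hpr, hf, hg⟩ :=
      Pool.Agent.Run7.h802.HP.model_Z2 hn (Pool.Agent.Run7.h802.HP.formR K a) d (by omega)
        (Pool.Agent.Run7.h802.HP.formR_hom K a)
        (Pool.Agent.Run7.h802.HP.smooth_of (by omega) a hs)
        (Pool.Agent.Run7.h802.HP.locReg2_of a hp) π hπ hker ℬ hℬ V hV
    exact ⟨Y, hi, ⟨hn', hr⟩, hpr, hf, hg⟩
  simp only [boxCard_eq]
  refine ⟨?_, ?_⟩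
  · intro n d hn hd
    exact (Pool.Agent.Run7.h802.HP.allDens n d hn hd IsGood (key n d hn hd)).2
  · intro n d hn hd
    exact (Pool.Agent.Run7.h802.HP.allDens n d hn hd IsGood (key n d hn hd)).1

end Pool.Agent.Results.MP_602153_ag.PositiveProportion
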