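import Pool.Agent.Results.MP_602153_ag.BoundedDegreeAtValuations
import Pool.Agent.Run7.h360.TA.Adic
import Pool.Agent.Run7.h360.TA.Adic2

/-!
MP_602153_ag: projective flat models over the integers of the varieties with a torus action, which are
regular at the centres of given valuations, for ALL primes and in all dimensions.

Let `X` be an integral projective variety over `ℚ` (for example, a smooth one) with the function field
`F`, on which the torus `𝔾_m ^ r` acts linearly: the homogeneous coordinates `z 1, ..., z m` are
multiplied by characters `w i` (`IsLinearAction`), and let `𝒳 = Proj ℤ[z 1, ..., z m]` be the closure of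
`X` in the projective space over `ℤ`. There is no condition on `r`, on the dimension or the degree of `X`, or
on the weights. Let `E` be the field of the invariant rational functions, that is, the function field of the
quotient; if the general orbits have codimension `c` in `X` then the transcendence degree of `E` is `c`.

Let `S` be a finite set of prime numbers, arbitrarily small, and for all `p ∈ S` let `V_p` be a valuation ring
of `F`, of any rank, in which `p` is topologically nilpotent (a point of the `p`-adic adic space of `X` over
the generic point of `X`), such that the restriction of `V_p` to `E` is discrete, or has divergent sequences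
of quadratic transforms, or is log uniformizable (for example, if `c ≤ 2`, by Cossart and Piltant; this is not
used). Then a blowing-up `𝒳'` of `𝒳` in a closed subscheme of the union of the fibres over the primes
`p ∈ S`, which is a projective flat model of `X`, is regular at the centres of all `V_p` and of all the
valuation rings which contain one of the `V_p`, and the fibre over `p` is a divisor with normal crossings
there. So Beilinson's question has a positive answer locally at all these valuations: for the varieties with a
torus action it is reduced, at every valuation and every prime, to the models of the quotient.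

The same is true over every Dedekind domain `O` of characteristic zero, for example the ring of integers of a
number field.

Relation to the starting files. `BoundedDegreeAtValuations` (helper98) treats varieties of degree `δ` over a
subfield `E`, defined by polynomials of degree at most `e` over `E`, at the primes
`p > (δ e ^ r) ^ 2 ^ r`. Here the subfield is given by the group action, and there is no condition on
the primes: the proof shows that `𝒳` is defined in degree one, with degree one, over the field of
invariants, in coordinates which are Laurent monomials in the `z i`, so that the condition of the starting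
file is `p > 1`.

helper562 and helper360: the structure of the function field (`structure_thm`: a basis of the group of the
weights gives Laurent monomials `x j` in the `z i` which are algebraically independent over `E` and generate
the function field over `E`) is helper360's theorem (`Run7/h360/TA`), used for points of `X^ad` of rank
conditions in `MP_1a953e_ag.TorusActionsAdicPoints`. New here: one model for several primes, all the charts
of the projective scheme at once, no ramified base change, and normal crossings at all generizations.
-/

set_option autoImplicit false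

universe u

namespace Pool.Agent.Results.MP_602153_ag.TorusActionsAtValuations

open MvPolynomial Pool.Agent.Results.MP_602153_ag.BoundedDegreeAtValuations

/-- The torus `𝔾_m ^ r` acts on the projective scheme `𝒳 = Proj O[z 1, ..., z m]` (`z` its generic point) such
that the homogeneous coordinate `z i` is multiplied by the character `w i`: if a homogeneous polynomial
over `O` vanishes at `z`, then all its components for the weights `w` vanish at `z`. -/
def IsLinearAction {K : Type u} [Field K] (O : Subring K) {m r : ℕ} (z : Fin m → K)
    (w : Fin m → (Fin r → ℤ)) : Prop :=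
  ∀ (n : ℕ) (F : MvPolynomial (Fin m) O), F.IsHomogeneous n → aeval z F = 0 →
    ∀ d, aeval z (weightedHomogeneousComponent w d F) = 0

/-- `x` is an invariant rational function on `𝒳`: a quotient of two homogeneous polynomials in the
homogeneous coordinates of the same degree and of the same weight. -/
def IsInvariant {K : Type u} [Field K] (O : Subring K) {m r : ℕ} (z : Fin m → K)
    (w : Fin m → (Fin r → ℤ)) (x : K) : Prop :=
  ∃ (n : ℕ) (e : Fin r → ℤ) (F G : MvPolynomial (Fin m) O), F.IsHomogeneous n ∧ G.IsHomogeneous n ∧
    IsWeightedHomogeneous w F e ∧ IsWeightedHomogeneous w G e ∧ aeval z G ≠ 0 ∧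
      x = aeval z F / aeval z G

lemma isInvariant_iff {K : Type u} [Field K] (O : Subring K) {m r : ℕ} (z : Fin m → K)
    (w : Fin m → (Fin r → ℤ)) (x : K) :
    x ∈ Pool.Agent.Run7.h360.TA.Adic.invField O z w ↔ IsInvariant O z w x := by
  constructor
  · rintro ⟨n, e, F, G, h1, h2, h3, h4, h5, h6⟩
    rw [zero_add] at h3
    exact ⟨n, e, F, G, h1, h2, h3, h4, h5, h6⟩
  · rintro ⟨n, e, F, G, h1, h2, h3, h4, h5, h6⟩
    exact ⟨n, e, F, G, h1, h2, by rw [zero_add]; exact h3, h4, h5, h6⟩

section products

variable {E K : Type u} [Field E] [Field K] [Algebra E K] {n : ℕ} {x : Fin n → K} {A : Subring K}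

lemma prod_one : IsProduct E x 1 (1 : K) := by
  have h := Pool.Agent.N98.SS.pprod_const (E := E) (K := K) (x := x) (e := 1) (1 : E)
  rwa [map_one] at h

lemma prod_mul {y z : K} (hy : IsProduct E x 1 y) (hz : IsProduct E x 1 z) :
    IsProduct E x 1 (y * z) :=
  Pool.Agent.N98.SS.pprod_mul hy hz

lemma prod_inv {y : K} (hy : IsProduct E x 1 y) : IsProduct E x 1 y⁻¹ :=
  Pool.Agent.N98.SS.pprod_inv hy

lemma frac_one : IsFraction E x 1 A (1 : K) :=
  ⟨1, A.one_mem, one_ne_zero, prod_one, by rw [one_mul]; exact A.one_mem⟩

lemma frac_mul {y z : K} (hy : IsFraction E x 1 A y) (hz : IsFraction E x 1 A z) :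
    IsFraction E x 1 A (y * z) := by
  obtain ⟨b, h1, h2, h3, h4⟩ := hy
  obtain ⟨c, g1, g2, g3, g4⟩ := hz
  refine ⟨b * c, mul_mem h1 g1, mul_ne_zero h2 g2, prod_mul h3 g3, ?_⟩
  have h : b * c * (y * z) = b * y * (c * z) := by ring
  rw [h]
  exact mul_mem h4 g4

lemma frac_pow {y : K} (hy : IsFraction E x 1 A y) (k : ℕ) : IsFraction E x 1 A (y ^ k) := by
  induction k with
  | zero => rw [pow_zero]; exact frac_one
  | succ k ih => rw [pow_succ]; exact frac_mul ih hy

lemma frac_zpow {y : K} (hy : IsFraction E x 1 A y) (hy' : IsFraction E x 1 A y⁻¹) (k : ℤ) :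
    IsFraction E x 1 A (y ^ k) := by
  obtain ⟨k, rfl | rfl⟩ := k.eq_nat_or_neg
  · rw [zpow_natCast]; exact frac_pow hy k
  · rw [zpow_neg, zpow_natCast, ← inv_pow]; exact frac_pow hy' k

lemma frac_prod {σ : Type} (s : Finset σ) (y : σ → K) (hy : ∀ i ∈ s, IsFraction E x 1 A (y i)) :
    IsFraction E x 1 A (∏ i ∈ s, y i) := by
  classical
  induction s using Finset.induction_on with
  | empty => rw [Finset.prod_empty]; exact frac_one
  | insert i s hi ih =>
    rw [Finset.prod_insert hi]
    exact frac_mul (hy i (Finset.mem_insert_self _ _))
      (ih fun j hj => hy j (Finset.mem_insert_of_mem hj))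

/-- `y / z` is a fraction, if `y / t` and `z / t` are elements of `A` and products. -/
lemma frac_div {y z t : K} (hz : z ≠ 0) (ht : t ≠ 0) (h1 : y / t ∈ A) (h2 : z / t ∈ A)
    (h3 : IsProduct E x 1 z) (h4 : IsProduct E x 1 t) : IsFraction E x 1 A (y / z) := by
  refine ⟨z / t, h2, div_ne_zero hz ht, ?_, ?_⟩
  · rw [div_eq_mul_inv]
    exact prod_mul h3 (prod_inv h4)
  · have h : z / t * (y / z) = y / t := by field_simp
    rw [h]
    exact h1

end products

/-- Let `F` be a field of characteristic zero, let `O ⊆ F` be a Dedekind domain (for example, `ℤ`), and let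
`𝒳 = Proj O[z 1, ..., z m]` be an integral projective scheme with the function field `F` and the
homogeneous coordinates `z 1, ..., z m` (all not zero on `𝒳`, normalized such that `z i₀ = 1` for some
`i₀`), on which the torus `𝔾_m ^ r` acts such that `z i` is multiplied by the character `w i`. Let `E` be
the field of the invariant rational functions. Let `S` be a finite set of primes, and for all `p ∈ S` let
`V p ⊇ O` be a valuation ring of `F`, of any rank, with `|p| < 1` and `F = (V p)[1/p]`, whose restriction to
`E` is a discrete valuation ring, or has divergent sequences of quadratic transforms, or is log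
uniformizable on all models of `E`.

Then there is a closed subscheme of `𝒳`, contained in the union of the fibres over the `p ∈ S`, such
that the blowing-up of `𝒳` in this subscheme is, for all `p ∈ S`, regular at the centres of `V p` and
of all valuation rings `V₁ ⊇ V p`, with a fibre over `p` with normal crossings there. -/
theorem result {F : Type u} [Field F] [CharZero F] (O : Subring F) [IsDedekindDomain O]
    (m r : ℕ) (z : Fin m → F) (hz0 : ∀ i, z i ≠ 0) (i₀ : Fin m) (hi₀ : z i₀ = 1)
    (hF : ∀ y : F, ∃ P Q : MvPolynomial (Fin m) O, aeval z Q ≠ 0 ∧ y = aeval z P / aeval z Q)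
    (w : Fin m → (Fin r → ℤ)) (hact : IsLinearAction O z w)
    (E : Subfield F) (hE : ∀ x : F, x ∈ E ↔ IsInvariant O z w x)
    (S : Finset ℕ) (hS : ∀ p ∈ S, p.Prime)
    (V : ℕ → ValuationSubring F) (hOV : ∀ p ∈ S, ∀ a ∈ O, a ∈ V p)
    (hpV : ∀ p ∈ S, (V p).valuation (p : F) < 1)
    (htop : ∀ p ∈ S, ∀ a : F, ∃ n : ℕ, (p : F) ^ n * a ∈ V p)
    (hEV : ∀ p ∈ S, IsAdmissible (O.comap E.subtype) ((V p).comap E.subtype)) :
    ∃ Y : Set F, IsVerticalCentre O ((∏ p ∈ S, p : ℕ) : F) (Set.range z) Y ∧
      ∀ p ∈ S, ∀ V₁ : ValuationSubring F, V p ≤ V₁ →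
        IsRegularAtCentre V₁ O (blowUpCoordinates (Set.range z) Y) (p : F) := by
  classical
  have hEeq : E = Pool.Agent.Run7.h360.TA.Adic.invField O z w := by
    ext x
    rw [hE, isInvariant_iff]
  subst hEeq
  obtain ⟨n, x, a, c, ez, hx, ha, hx0, ha0, hza, haz, hind, hcl, htp⟩ :=
    Pool.Agent.Run7.h360.TA.Adic.structure_thm (O := O) (z := z) (w := w) hact hz0 i₀ hi₀ hF
  obtain ⟨htr, cc, hC⟩ := Pool.Agent.Run7.h360.TA.Adic.degree_one x hind htp
  set E : Subfield F := Pool.Agent.Run7.h360.TA.Adic.invField O z w with hEdef
  have hzp : ∀ i, IsProduct E x 1 (z i) := by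
    intro i
    refine ⟨n + 1, Fin.cons (C (⟨a i, ha i⟩ : E)) (fun j => X j), Fin.cons 1 (c i), ?_, ?_⟩
    · intro j
      refine Fin.cases ?_ (fun j => ?_) j
      · rw [Fin.cons_zero, totalDegree_C]
        exact Nat.zero_le _
      · rw [Fin.cons_succ]
        exact (totalDegree_X j).le
    · rw [Fin.prod_univ_succ]
      simp only [Fin.cons_zero, Fin.cons_succ, zpow_one, aeval_X, aeval_C]
      exact hza i
  have hdiv : ∀ l i : Fin m, z i / z l ∈ chart O (Set.range z) (z l) := fun l i =>
    Subring.subset_closure (Or.inr ⟨z i, ⟨i, rfl⟩, rfl⟩)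
  have hf1 : ∀ l i : Fin m, IsFraction E x 1 (chart O (Set.range z) (z l)) (z i) := by
    intro l i
    have h := frac_div (E := E) (x := x) (y := z i) (hz0 i₀) (hz0 l) (hdiv l i) (hdiv l i₀)
      (hzp i₀) (hzp l)
    rwa [hi₀, div_one] at h
  have hf2 : ∀ l i : Fin m, IsFraction E x 1 (chart O (Set.range z) (z l)) (z i)⁻¹ := by
    intro l i
    have h := frac_div (E := E) (x := x) (y := z i₀) (hz0 i) (hz0 l) (hdiv l i₀) (hdiv l i)
      (hzp i) (hzp l)
    rwa [hi₀, one_div] at h
  have hfx : ∀ (l : Fin m) (j : Fin n), IsFraction E x 1 (chart O (Set.range z) (z l)) (x j) := by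
    intro l j
    rw [hx j]
    exact frac_prod _ _ fun i _ => frac_zpow (hf1 l i) (hf2 l i) _
  have hxi : ∀ (l : Fin m) (j : Fin n),
      IsFraction E x 1 (chart O (Set.range z) (z l)) (x j)⁻¹ := by
    intro l j
    rw [hx j, ← Finset.prod_inv_distrib]
    refine frac_prod _ _ fun i _ => ?_
    rw [← zpow_neg]
    exact frac_zpow (hf1 l i) (hf2 l i) _
  refine BoundedDegreeAtValuations.result O (Set.range z) (Set.finite_range z) E n n 1 1 le_rfl x
    ⟨htp, htr, cc, hC⟩ ⟨⟨z i₀, ⟨i₀, rfl⟩, hz0 i₀⟩, ?_, Set.range a, Set.finite_range a, hcl, ?_⟩
    S hS ?_ V hOV hpV htop hEV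
  · rintro _ ⟨i, rfl⟩
    exact hzp i
  · rintro _ ⟨l, rfl⟩ -
    refine ⟨fun j => hfx l j, ?_⟩
    rintro _ ⟨i, rfl⟩
    rw [haz i]
    exact frac_mul (hf1 l i) (frac_prod _ _ fun j _ => frac_zpow (hfx l j) (hxi l j) _)
  · intro p hpS
    simp only [one_pow, one_mul]
    exact (hS p hpS).one_lt

end Pool.Agent.Results.MP_602153_ag.TorusActionsAtValuations
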